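import Pool.Agent.U137.GV.Low
import Pool.Agent.U137.GV.Main

/-!
U121/GVLow (helper121): many linear codes of rate less than `(1 - s) (1 - H_q ((δ - s) / (1 - s)))`
have a coset of minimum weight at least `δ n`: they vanish on `s n` coordinates, and the coset has
ones there and is far from the code in the other coordinates (sphere covering).
-/

set_option autoImplicit false

namespace Pool.Agent.U121.GVLow

open Finset Pool.Agent.U137.GV

variable {F : Type} [Field F] [Fintype F] [DecidableEq F]

/-- the volume of a Hamming ball -/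
lemma vol_le {p : ℝ} (hp0 : 0 < p) (hp : p ≤ 1 - 1 / (Fintype.card F : ℝ)) (e : ℕ) :
    ((univ.filter fun v : Fin e → F => (hammingNorm v : ℝ) ≤ p * e).card : ℝ) ≤
      Real.exp (e * EE (Fintype.card F) p) := by
  have hq := two_le_card (F := F)
  obtain ⟨q, hqq⟩ : ∃ q : ℝ, q = (Fintype.card F : ℝ) := ⟨_, rfl⟩
  have hq2 : (2 : ℝ) ≤ q := by rw [hqq]; exact_mod_cast hq
  have hq0 : (0 : ℝ) < q := by linarith
  have hq1 : (0 : ℝ) < q - 1 := by linarith
  rw [← hqq] at hp ⊢
  have hpq : p * q ≤ q - 1 := by
    have h2 := mul_le_mul_of_nonneg_right hp hq0.le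
    rw [sub_mul, one_mul, div_mul_cancel₀ _ hq0.ne'] at h2
    exact h2
  have hp1 : p < 1 := by
    have : 0 < 1 / q := by positivity
    linarith
  obtain ⟨α, hα⟩ : ∃ α : ℝ, α = p / (q - 1) := ⟨_, rfl⟩
  obtain ⟨β, hβ⟩ : ∃ β : ℝ, β = 1 - p := ⟨_, rfl⟩
  have hα0 : 0 < α := by rw [hα]; positivity
  have hβ0 : 0 < β := by rw [hβ]; linarith
  have hαβ : α ≤ β := by
    rw [hα, hβ, div_le_iff₀ hq1]
    linarith
  have hlog : Real.log α ≤ Real.log β := Real.log_le_log hα0 hαβ
  have hent : -(e * EE q p) = p * e * Real.log α + (e - p * e) * Real.log β := by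
    unfold EE Real.binEntropy
    rw [Real.log_inv, Real.log_inv, hα, hβ, Real.log_div hp0.ne' hq1.ne']
    ring
  have hsum : ∑ v : Fin e → F, ∏ i, (if v i ≠ 0 then α else β) = 1 := by
    have h := Finset.prod_univ_sum (fun _ : Fin e => (univ : Finset F))
      (fun _ z => if z ≠ 0 then α else β)
    rw [Fintype.piFinset_univ] at h
    rw [← h]
    apply Finset.prod_eq_one
    intro i _
    have h2 : ∀ z : F, (if z ≠ 0 then α else β) = α + if z = 0 then β - α else 0 := by
      intro z
      by_cases hz : z = 0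
      · rw [if_neg (not_not.2 hz), if_pos hz]
        ring
      · rw [if_pos hz, if_neg hz]
        ring
    rw [sum_congr rfl fun z _ => h2 z, sum_add_distrib, sum_const, nsmul_eq_mul, card_univ,
      sum_ite_eq' univ (0 : F), if_pos (mem_univ _), ← hqq, hβ, hα]
    field_simp
    ring
  have hterm : ∀ v ∈ (univ.filter fun v : Fin e → F => (hammingNorm v : ℝ) ≤ p * e),
      Real.exp (-(e * EE q p)) ≤ ∏ i, (if v i ≠ 0 then α else β) := by
    intro v hv
    have hv2 := (mem_filter.1 hv).2
    have h1 : ∏ i, (if v i ≠ 0 then α else β) = α ^ hammingNorm v * β ^ (e - hammingNorm v) := by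
      rw [prod_ite, prod_const, prod_const]
      unfold hammingNorm
      congr 2
      have h := Finset.card_filter_add_card_filter_not (s := (univ : Finset (Fin e)))
        (fun i => v i ≠ 0)
      rw [card_univ, Fintype.card_fin] at h
      omega
    have hle : hammingNorm v ≤ e := by
      unfold hammingNorm
      refine (card_le_univ _).trans ?_
      rw [Fintype.card_fin]
    have h2 : α ^ hammingNorm v * β ^ (e - hammingNorm v) =
        Real.exp (hammingNorm v * Real.log α + ((e : ℝ) - hammingNorm v) * Real.log β) := by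
      rw [Real.exp_add, mul_comm ((hammingNorm v : ℕ) : ℝ), Real.exp_mul, Real.exp_log hα0,
        Real.rpow_natCast, mul_comm ((e : ℝ) - _), Real.exp_mul, Real.exp_log hβ0,
        ← Nat.cast_sub hle, Real.rpow_natCast]
    rw [h1, h2]
    apply Real.exp_le_exp.2
    rw [hent]
    have h3 : 0 ≤ (p * e - hammingNorm v) * (Real.log β - Real.log α) :=
      mul_nonneg (by linarith) (by linarith)
    linarith
  have h3 : ((univ.filter fun v : Fin e → F => (hammingNorm v : ℝ) ≤ p * e).card : ℝ) *
      Real.exp (-(e * EE q p)) ≤ 1 := by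
    rw [← nsmul_eq_mul, ← sum_const, ← hsum]
    refine (sum_le_sum hterm).trans ?_
    refine sum_le_sum_of_subset_of_nonneg (subset_univ _) fun x _ _ => prod_nonneg fun i _ => ?_
    split_ifs
    · exact hα0.le
    · exact hβ0.le
  rw [Real.exp_neg, ← div_eq_mul_inv, div_le_one (Real.exp_pos _)] at h3
  exact h3

/-- sphere covering: a word which is far from the code -/
lemma exists_far {e k : ℕ} {ρ : ℝ} (C : Submodule F (Fin e → F)) (hC : Module.finrank F C = k)
    (h : Fintype.card F ^ k * (univ.filter fun v : Fin e → F => (hammingNorm v : ℝ) < ρ).card <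
      Fintype.card F ^ e) :
    ∃ y : Fin e → F, ∀ c ∈ C, ρ ≤ (hammingNorm (c + y) : ℝ) := by
  classical
  by_contra hc
  push Not at hc
  have h1 : (univ : Finset (Fin e → F)) ⊆ ((univ.filter (fun c => c ∈ C)) ×ˢ
      (univ.filter fun v : Fin e → F => (hammingNorm v : ℝ) < ρ)).image (fun p => p.2 - p.1) := by
    intro y _
    obtain ⟨c, hcC, hlt⟩ := hc y
    rw [mem_image]
    exact ⟨(c, c + y), mem_product.2 ⟨mem_filter.2 ⟨mem_univ _, hcC⟩,
      mem_filter.2 ⟨mem_univ _, hlt⟩⟩, by simp⟩
  have h2 := (card_le_card h1).trans card_image_le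
  rw [card_product, card_univ, Fintype.card_fun, Fintype.card_fin] at h2
  have h3 : (univ.filter (fun c => c ∈ C)).card = Fintype.card F ^ k := by
    rw [← hC, ← Module.card_eq_pow_finrank (K := F) (V := C), Fintype.card_subtype]
  rw [h3] at h2
  omega

/-- codes which vanish on `m` coordinates -/
lemma coset_ge {n k m : ℕ} (hkn : k + m ≤ n) {r : ℝ}
    (h : Fintype.card F ^ k *
      (univ.filter fun v : Fin (n - m) → F => (hammingNorm v : ℝ) < r - m).card <
      Fintype.card F ^ (n - m)) :
    (numAll F n k : ℝ) ≤ 4 * (Fintype.card F : ℝ) ^ (m * k) *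
      num F n k (fun C => ∃ x : Fin n → F, ∀ w ∈ C, r ≤ (hammingNorm (w + x) : ℝ)) := by
  classical
  obtain ⟨e, rfl⟩ : ∃ e, n = m + e := ⟨n - m, by omega⟩
  rw [Nat.add_sub_cancel_left] at h
  have hke : k ≤ e := by omega
  have h4 : numAll F e k ≤ num F (m + e) k (fun C => ∃ x : Fin (m + e) → F, ∀ w ∈ C,
      r ≤ (hammingNorm (w + x) : ℝ)) := by
    unfold numAll num
    have : Finite (Submodule F (Fin (m + e) → F)) :=
      Finite.of_injective (fun W => (W : Set (Fin (m + e) → F))) SetLike.coe_injective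
    refine Nat.card_le_card_of_injective (fun C => ⟨C.1.map (ext0 F m e), ?_, ?_⟩) ?_
    · exact (LinearEquiv.finrank_eq (Submodule.equivMapOfInjective _ (ext0_inj m e)
        C.1)).symm.trans C.2
    · obtain ⟨y, hy⟩ := exists_far C.1 C.2 h
      refine ⟨Fin.append (fun _ => 1) y, ?_⟩
      rintro w ⟨c, hc, rfl⟩
      have h5 := hy c hc
      have h6 : m + hammingNorm (c + y) ≤
          hammingNorm (ext0 F m e c + Fin.append (fun _ : Fin m => (1 : F)) y) := by
        unfold hammingNorm
        have h7 : ((univ : Finset (Fin m))).card = m := by simp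
        conv_lhs => rw [← h7]
        rw [← card_disjSum]
        refine Finset.card_le_card_of_injOn
          (Sum.elim (Fin.castAdd e) (Fin.natAdd m)) ?_ ?_
        · intro a ha
          rw [mem_coe, mem_filter]
          refine ⟨mem_univ _, ?_⟩
          rcases a with i | j
          · show ext0 F m e c (Fin.castAdd e i) + Fin.append (fun _ : Fin m => (1 : F)) y
              (Fin.castAdd e i) ≠ 0
            rw [ext0_lt c _ (by simp), zero_add, Fin.append_left]
            exact one_ne_zero
          · show ext0 F m e c (Fin.natAdd m j) + Fin.append (fun _ : Fin m => (1 : F)) y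
              (Fin.natAdd m j) ≠ 0
            rw [ext0_natAdd, Fin.append_right]
            rw [mem_coe, inr_mem_disjSum, mem_filter] at ha
            exact ha.2
        · intro a _ b _ hab
          rcases a with i | i <;> rcases b with j | j
          · exact congrArg _ (Fin.castAdd_injective m e hab)
          · exfalso
            have h8 : (i : ℕ) = m + j := congrArg Fin.val hab
            omega
          · exfalso
            have h8 : m + (i : ℕ) = j := congrArg Fin.val hab
            omega
          · exact congrArg _ (Fin.natAdd_injective e m hab)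
      have h8 : (m : ℝ) + hammingNorm (c + y) ≤
          hammingNorm (ext0 F m e c + Fin.append (fun _ : Fin m => (1 : F)) y) := by
        exact_mod_cast h6
      linarith
    · intro W W' h'
      have h'' := Subtype.ext_iff.1 h'
      exact Subtype.ext (Submodule.map_injective_of_injective (ext0_inj m e) h'')
  have hq := two_le_card (F := F)
  have hq0 : (0 : ℝ) < Fintype.card F := by exact_mod_cast (by omega : 0 < Fintype.card F)
  obtain ⟨q, hqq⟩ : ∃ q : ℕ, q = Fintype.card F := ⟨_, rfl⟩
  have h5 : (numAll F (m + e) k : ℝ) * bb q k k = bb q (m + e) k := by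
    rw [hqq]
    exact_mod_cast numAll_mul (by omega : k ≤ m + e)
  have h5' : (numAll F e k : ℝ) * bb q k k = bb q e k := by
    rw [hqq]
    exact_mod_cast numAll_mul hke
  have h6 : (bb q (m + e) k : ℝ) ≤ (q : ℝ) ^ ((m + e) * k) := by exact_mod_cast bb_le _ (m + e) k
  have h7 := bb_ge' (q := q) (by omega) hke
  have h9 := bb_ge' (q := q) (by omega) (le_refl k)
  rw [← hqq] at hq0 ⊢
  have h10 : (0 : ℝ) < bb q k k := by
    have : (0 : ℝ) < (q : ℝ) ^ (k * k) := by positivity
    linarith
  have h12 : (numAll F e k : ℝ) ≤ num F (m + e) k (fun C => ∃ x : Fin (m + e) → F, ∀ w ∈ C,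
      r ≤ (hammingNorm (w + x) : ℝ)) := by exact_mod_cast h4
  refine le_trans ?_ (mul_le_mul_of_nonneg_left h12 (by positivity))
  have h13 : (numAll F (m + e) k : ℝ) * bb q k k ≤
      (4 * (q : ℝ) ^ (m * k) * numAll F e k) * bb q k k := by
    calc (numAll F (m + e) k : ℝ) * bb q k k ≤ (q : ℝ) ^ (m * k) * (q : ℝ) ^ (e * k) := by
          rw [h5, ← pow_add, ← add_mul]; exact h6
      _ ≤ (q : ℝ) ^ (m * k) * (4 * bb q e k) := mul_le_mul_of_nonneg_left h7 (by positivity)
      _ = _ := by rw [← h5']; ring
  exact le_of_mul_le_mul_right h13 h10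

omit [DecidableEq F] in
lemma num_mono {n k : ℕ} {P Q : Submodule F (Fin n → F) → Prop} (h : ∀ C, P C → Q C) :
    num F n k P ≤ num F n k Q := by
  unfold num
  have : Finite (Submodule F (Fin n → F)) :=
    Finite.of_injective (fun W => (W : Set (Fin n → F))) SetLike.coe_injective
  refine Nat.card_le_card_of_injective (fun C => ⟨C.1, C.2.1, h _ C.2.2⟩) ?_
  intro C C' h'
  have h'' := Subtype.ext_iff.1 h'
  exact Subtype.ext h''

/-- **Many codes with a coset of large minimum weight.** -/
theorem lower {s δ R L : ℝ} (hL : L = Real.log (Fintype.card F)) (hs : 0 < s) (hsδ : s ≤ δ)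
    (hδ : δ < 1 - 1 / (Fintype.card F : ℝ))
    (hR : R * L < (1 - s) * (L - EE (Fintype.card F) ((δ - s) / (1 - s)))) :
    ∃ n₀ : ℕ, ∀ n k : ℕ, n₀ ≤ n → (k : ℝ) ≤ R * n →
      (numAll F n k : ℝ) ≤ 4 * (Fintype.card F : ℝ) ^ (⌈s * n⌉₊ * k) *
        num F n k (fun C => ∃ x : Fin n → F, ∀ w ∈ C, w + x ≠ 0 →
          δ * n ≤ (hammingNorm (w + x) : ℝ)) := by
  have hq := two_le_card (F := F)
  obtain ⟨q, hqq⟩ : ∃ q : ℝ, q = (Fintype.card F : ℝ) := ⟨_, rfl⟩
  have hq2 : (2 : ℝ) ≤ q := by rw [hqq]; exact_mod_cast hq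
  have hq0 : (0 : ℝ) < q := by linarith
  rw [← hqq] at hL hδ hR
  have hL0 : 0 < L := by rw [hL]; exact Real.log_pos (by linarith)
  have hq1 : 0 < 1 / q := by positivity
  have hδ1 : δ < 1 := by linarith
  have hs1 : 0 < 1 - s := by linarith
  obtain ⟨p, hp⟩ : ∃ p : ℝ, p = (δ - s) / (1 - s) := ⟨_, rfl⟩
  have hp0 : 0 ≤ p := by rw [hp]; exact div_nonneg (by linarith) hs1.le
  have hps : p * (1 - s) = δ - s := by rw [hp]; field_simp
  have hpδ : p ≤ δ := by
    rw [hp, div_le_iff₀ hs1]
    nlinarith
  rw [← hp] at hR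
  obtain ⟨A, hA⟩ : ∃ A : ℝ, A = L - EE q p := ⟨_, rfl⟩
  rw [← hA] at hR
  have hEE0 : 0 ≤ EE q p := by
    unfold EE
    have h1 : 0 ≤ p * Real.log (q - 1) := mul_nonneg hp0 (Real.log_nonneg (by linarith))
    have h2 : 0 ≤ Real.binEntropy p := Real.binEntropy_nonneg hp0 (by linarith)
    linarith
  have hAL : A ≤ L := by linarith
  have hA0 : 0 ≤ A := by
    rcases hp0.eq_or_lt with h | h
    · rw [hA, ← h]
      unfold EE
      simp only [zero_mul, Real.binEntropy_zero, add_zero, sub_zero]
      exact hL0.le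
    · have := EE_le hq2 h (by linarith)
      rw [hA, hL]
      linarith
  obtain ⟨gap, hgap⟩ : ∃ gap : ℝ, gap = (1 - s) * A - R * L := ⟨_, rfl⟩
  have hgap0 : 0 < gap := by rw [hgap]; linarith
  obtain ⟨n₀, hn₀⟩ := exists_nat_gt ((A + 1) / gap + 1 / (1 - δ) + 1)
  refine ⟨n₀, fun n k hn hk => ?_⟩
  have hnR : (n₀ : ℝ) ≤ n := by exact_mod_cast hn
  have ha0 : 0 ≤ (A + 1) / gap := div_nonneg (by linarith) hgap0.le
  have hb0 : 0 ≤ 1 / (1 - δ) := div_nonneg zero_le_one (by linarith)
  have hn1 : (A + 1) / gap < n := by linarith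
  have hn2 : 1 / (1 - δ) < n := by linarith
  have hn3 : (1 : ℝ) < n := by linarith
  have hn0 : (0 : ℝ) < n := by linarith
  rw [div_lt_iff₀ hgap0] at hn1
  rw [div_lt_iff₀ (by linarith)] at hn2
  obtain ⟨m, hm⟩ : ∃ m : ℕ, m = ⌈s * n⌉₊ := ⟨_, rfl⟩
  rw [← hm]
  have hm1 : s * n ≤ m := by rw [hm]; exact Nat.le_ceil _
  have hm2 : (m : ℝ) < s * n + 1 := by
    rw [hm]
    exact Nat.ceil_lt_add_one (by positivity)
  have hsn : s * n ≤ δ * n := mul_le_mul_of_nonneg_right hsδ hn0.le
  have hmn : m ≤ n := by
    have h1 : (m : ℝ) ≤ n := by linarith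
    exact_mod_cast h1
  have hecast : ((n - m : ℕ) : ℝ) = n - m := Nat.cast_sub hmn
  obtain ⟨e, he⟩ : ∃ e : ℕ, e = n - m := ⟨_, rfl⟩
  rw [← he] at hecast
  -- `k L < e A`
  have hkA : k * L < e * A := by
    have h1 : k * L ≤ R * n * L := mul_le_mul_of_nonneg_right hk hL0.le
    have h2 : ((1 - s) * n - 1) * A ≤ e * A := by
      apply mul_le_mul_of_nonneg_right _ hA0
      rw [hecast]
      linarith
    have h3 : n * gap = (1 - s) * n * A - R * n * L := by rw [hgap]; ring
    linarith
  have hke : k < e := by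
    have h1 : k * L < e * L := hkA.trans_le (mul_le_mul_of_nonneg_left hAL (by positivity))
    have h2 : (k : ℝ) < e := lt_of_mul_lt_mul_right h1 hL0.le
    exact_mod_cast h2
  have hpe : δ * n - m ≤ p * e := by
    rw [hecast]
    have h1 : p * (n * (1 - s)) = (δ - s) * n := by rw [← hps]; ring
    have h2 : 0 ≤ (1 - p) * (m - s * n) := mul_nonneg (by linarith) (by linarith)
    linarith
  -- the volume
  have hvol : (Fintype.card F ^ k *
      (univ.filter fun v : Fin (n - m) → F => (hammingNorm v : ℝ) < δ * n - m).card) <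
      Fintype.card F ^ (n - m) := by
    rw [← he]
    have hreal : ((Fintype.card F : ℝ) ^ k *
        ((univ.filter fun v : Fin e → F => (hammingNorm v : ℝ) < δ * n - m).card : ℝ)) <
        (Fintype.card F : ℝ) ^ e := by
      rw [← hqq]
      have hexp : ∀ a : ℕ, q ^ a = Real.exp (a * L) := by
        intro a
        rw [hL, mul_comm, Real.exp_mul, Real.exp_log hq0, Real.rpow_natCast]
      have hball : ((univ.filter fun v : Fin e → F =>
          (hammingNorm v : ℝ) < δ * n - m).card : ℝ) ≤ Real.exp (e * EE q p) := by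
        rcases hp0.eq_or_lt with h | h
        · have h1 : (univ.filter fun v : Fin e → F => (hammingNorm v : ℝ) < δ * n - m) = ∅ := by
            rw [filter_eq_empty_iff]
            intro v _ hv
            have h2 : (0 : ℝ) ≤ hammingNorm v := by positivity
            rw [← h, zero_mul] at hpe
            linarith
          rw [h1, card_empty, Nat.cast_zero]
          exact (Real.exp_pos _).le
        · have h1 := vol_le (F := F) h (by rw [← hqq]; linarith) e
          rw [← hqq] at h1
          refine le_trans ?_ h1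
          have h2 : (univ.filter fun v : Fin e → F => (hammingNorm v : ℝ) < δ * n - m) ⊆
              (univ.filter fun v : Fin e → F => (hammingNorm v : ℝ) ≤ p * e) := by
            intro v hv
            rw [mem_filter] at hv ⊢
            exact ⟨hv.1, hv.2.le.trans hpe⟩
          exact_mod_cast card_le_card h2
      calc q ^ k * ((univ.filter fun v : Fin e → F =>
            (hammingNorm v : ℝ) < δ * n - m).card : ℝ) ≤
            Real.exp (k * L) * Real.exp (e * EE q p) := by
            rw [← hexp]
            exact mul_le_mul_of_nonneg_left hball (by positivity)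
        _ = Real.exp (k * L + e * EE q p) := by rw [Real.exp_add]
        _ < Real.exp (e * L) := by
            apply Real.exp_lt_exp.2
            have h1 : (e : ℝ) * A = e * L - e * EE q p := by rw [hA]; ring
            linarith
        _ = _ := by rw [hexp]
    exact_mod_cast hreal
  have hfin := coset_ge (F := F) (n := n) (k := k) (m := m) (r := δ * n) (by omega) hvol
  refine hfin.trans ?_
  apply mul_le_mul_of_nonneg_left _ (by positivity)
  exact_mod_cast num_mono fun C hC => by
    obtain ⟨x, hx⟩ := hC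
    exact ⟨x, fun w hw _ => hx w hw⟩

end Pool.Agent.U121.GVLow
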